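import Pool.Agent.N15.AS.Main

/-!
# Finitude of attractors modulo a torus action: flows

Author: helper15.
-/

set_option autoImplicit false
set_option linter.unusedSectionVars false

open scoped Manifold ContDiff Topology
open Filter Set Metric MeasureTheory

universe u

namespace Pool.Agent.N15.EQ

open Pool.Agent.H718R2.G Pool.Agent.TH80.OMS Pool.Agent.Y504.CO Pool.Agent.Y318.MN
  Pool.Agent.N15.AS

/-- A continuous flow. -/
structure FlowOn (N : Type u) [TopologicalSpace N] (φ : ℝ → N → N) : Prop where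
  cont : Continuous fun q : ℝ × N => φ q.1 q.2
  zero : ∀ y, φ 0 y = y
  add : ∀ (s t : ℝ) (y : N), φ (s + t) y = φ s (φ t y)

section defs

variable {k : ℕ} {N : Type u} [TopologicalSpace N]

/-- The `ω`-limit set of the point `p` under the flow. -/
def omegaF (φ : ℝ → N → N) (p : N) : Set N :=
  {q | ∀ U ∈ 𝓝 q, ∀ T : ℝ, ∃ t : ℝ, T ≤ t ∧ φ t p ∈ U}

/-- `Λ` is an attractor of the flow: it is invariant, it contains a point whose forward orbit is
dense in `Λ`, and its basin has positive measure. -/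
def IsAttractorF [MeasurableSpace N] (μ : Measure N) (φ : ℝ → N → N) (Λ : Set N) : Prop :=
  (∀ t, φ t '' Λ = Λ) ∧ (∃ x ∈ Λ, Λ ⊆ closure {y | ∃ t : ℝ, 0 ≤ t ∧ y = φ t x}) ∧
    0 < μ {p | omegaF φ p ⊆ Λ}

/-- The flow has finitely many attractors covering the space. -/
def FiniteAttractorsF [MeasurableSpace N] (μ : Measure N) (φ : ℝ → N → N) : Prop :=
  ∃ (m : ℕ) (Λ : Fin m → Set N), (∀ i, IsAttractorF μ φ (Λ i)) ∧
    μ {p | ∀ i, ¬ omegaF φ p ⊆ Λ i} = 0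

/-- `M` is a closed set, invariant under the flow and under the torus, on which the flow is
transitive modulo the torus. -/
def TransModF (R : V k → N → N) (φ : ℝ → N → N) (M : Set N) : Prop :=
  IsClosed M ∧ (∀ t, φ t '' M = M) ∧ (∀ X, ∀ y ∈ M, R X y ∈ M) ∧
    ∃ x ∈ M, M ⊆ closure {y | ∃ t : ℝ, 0 ≤ t ∧ ∃ X : V k, y = R X (φ t x)}

/-- The flow has finitely many attractors modulo the torus which cover the space. -/
def FinModF [MeasurableSpace N] (μ : Measure N) (R : V k → N → N) (φ : ℝ → N → N) : Prop :=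
  ∃ (m : ℕ) (M : Fin m → Set N), (∀ i, TransModF R φ (M i)) ∧
    μ {p | ∀ i, ¬ omegaF φ p ⊆ M i} = 0

end defs

variable {k n : ℕ} {N : Type u} [TopologicalSpace N] [T2Space N] [CompactSpace N]
  [ChartedSpace (V n) N] [IsManifold (𝓡 n) ∞ N]
  {R : V k → N → N} {φ : ℝ → N → N}

theorem FlowOn.cont1 (hφ : FlowOn N φ) (t : ℝ) : Continuous (φ t) :=
  hφ.cont.comp (continuous_const.prodMk continuous_id)

/-- tails are dense modulo the torus -/
theorem tailsF (hφ : FlowOn N φ) (hcomm : ∀ t X y, φ t (R X y) = R X (φ t y)) {M : Set N}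
    (hinv : ∀ t, φ t '' M = M) {x : N}
    (hx : M ⊆ closure {y | ∃ t : ℝ, 0 ≤ t ∧ ∃ X : V k, y = R X (φ t x)}) (T : ℝ) :
    M ⊆ closure {y | ∃ t : ℝ, T ≤ t ∧ ∃ X : V k, y = R X (φ t x)} := by
  intro y hy
  rw [← hinv T] at hy
  obtain ⟨z, hz, rfl⟩ := hy
  have h1 : φ T z ∈ closure (φ T '' {y | ∃ t : ℝ, 0 ≤ t ∧ ∃ X : V k, y = R X (φ t x)}) :=
    image_closure_subset_closure_image (hφ.cont1 T) (mem_image_of_mem _ (hx hz))
  refine closure_mono ?_ h1
  rintro _ ⟨_, ⟨t, ht, X, rfl⟩, rfl⟩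
  exact ⟨T + t, by linarith, X, by rw [hcomm, hφ.add]⟩

theorem norm_box (v : V k) (hv : ∀ i, v i ∈ Icc (0 : ℝ) 1) : ‖v‖ ≤ k + 1 := by
  have h1 : ‖v‖ ^ 2 ≤ k := by
    rw [EuclideanSpace.norm_sq_eq]
    calc ∑ i, ‖v i‖ ^ 2 ≤ ∑ _i : Fin k, (1 : ℝ) := by
          refine Finset.sum_le_sum fun i _ => ?_
          have h2 : ‖v i‖ ≤ 1 := by
            rw [Real.norm_eq_abs, abs_of_nonneg (hv i).1]
            exact (hv i).2
          exact pow_le_one₀ (norm_nonneg _) h2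
      _ = k := by simp
  have h3 : (0 : ℝ) ≤ k := Nat.cast_nonneg k
  nlinarith [norm_nonneg v]

theorem reachF (hR : TorusAct k n N R) (hφ : FlowOn N φ)
    (hcomm : ∀ t X y, φ t (R X y) = R X (φ t y)) {M : Set N}
    (hinv : ∀ t, φ t '' M = M) {x : N}
    (hx : M ⊆ closure {y | ∃ t : ℝ, 0 ≤ t ∧ ∃ X : V k, y = R X (φ t x)}) {W : Set N}
    (hW : IsOpen W) {v : N} (hvM : v ∈ M) (hvW : v ∈ W) (X₀ : V k) (ε : ℝ) (hε : 0 < ε) :
    ∃ X : V k, ‖X - X₀‖ < ε ∧ ∃ t : ℝ, 0 ≤ t ∧ φ t (R (t • X) x) ∈ W := by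
  set T : ℝ := (k + 2) / ε with hT
  have hk : (0 : ℝ) ≤ k := Nat.cast_nonneg k
  have hT0 : 0 < T := by positivity
  obtain ⟨_, hyW, t, ht, Y, rfl⟩ :=
    _root_.mem_closure_iff.1 (tailsF hφ hcomm hinv hx T hvM) W hW hvW
  have ht0 : 0 < t := hT0.trans_le ht
  let v' : V k := WithLp.toLp 2 fun i => Int.fract (Y i - t * X₀ i)
  have hv' : ‖v'‖ ≤ k + 1 := norm_box v' fun i => ⟨Int.fract_nonneg _, (Int.fract_lt_one _).le⟩
  refine ⟨X₀ + t⁻¹ • v', ?_, t, ht0.le, ?_⟩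
  · rw [add_sub_cancel_left, norm_smul, Real.norm_eq_abs, abs_of_pos (inv_pos.2 ht0)]
    have h1 : (k + 2 : ℝ) ≤ ε * t := by
      have := (div_le_iff₀ hε).1 ht
      linarith [mul_comm t ε]
    rw [inv_mul_lt_iff₀ ht0]
    nlinarith
  · have h1 : t • (X₀ + t⁻¹ • v') = Y + WithLp.toLp 2 (fun i => ((-⌊Y i - t * X₀ i⌋ : ℤ) : ℝ)) := by
      rw [smul_add, smul_smul, mul_inv_cancel₀ ht0.ne', one_smul]
      ext i
      show t * X₀ i + Int.fract (Y i - t * X₀ i) = Y i + ((-⌊Y i - t * X₀ i⌋ : ℤ) : ℝ)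
      rw [Int.fract]
      push_cast
      ring
    rw [hcomm, h1, hR.add, hR.per (WithLp.toLp 2 (fun i => ((-⌊Y i - t * X₀ i⌋ : ℤ) : ℝ)))
      (fun i => ⟨-⌊Y i - t * X₀ i⌋, rfl⟩)]
    exact hyW

theorem dense_parF (hR : TorusAct k n N R) (hφ : FlowOn N φ)
    (hcomm : ∀ t X y, φ t (R X y) = R X (φ t y)) {m : ℕ}
    (M : Fin m → Set N) (hinv : ∀ i t, φ t '' M i = M i) (x : Fin m → N)
    (htr : ∀ i, M i ⊆ closure {y | ∃ t : ℝ, 0 ≤ t ∧ ∃ X : V k, y = R X (φ t (x i))}) :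
    {X : V k | ∀ i, M i ⊆ closure {y | ∃ t : ℝ, 0 ≤ t ∧ y = φ t (R (t • X) (x i))}} ∈
      residual (V k) := by
  have hmet := exists_metric n N
  let _ : MetricSpace N := TopologicalSpace.metrizableSpaceMetric N
  have hb := TopologicalSpace.isBasis_countableBasis N
  have hc := TopologicalSpace.countable_countableBasis N
  let J := {p : Fin m × {W : Set N // W ∈ TopologicalSpace.countableBasis N} //
    (M p.1 ∩ p.2.1).Nonempty}
  have : Countable {W : Set N // W ∈ TopologicalSpace.countableBasis N} := hc.to_subtype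
  have hJ : Countable J := inferInstance
  let O : J → Set (V k) := fun p => ⋃ t : {t : ℝ // 0 ≤ t},
    {X | φ t.1 (R (t.1 • X) (x p.1.1)) ∈ p.1.2.1}
  have hOo : ∀ p, IsOpen (O p) := by
    intro p
    refine isOpen_iUnion fun t => ?_
    have hc1 : Continuous fun X : V k => φ t.1 (R (t.1 • X) (x p.1.1)) :=
      (hφ.cont1 t.1).comp (hR.cont.comp ((continuous_const_smul t.1).prodMk continuous_const))
    exact (hb.isOpen p.1.2.2).preimage hc1
  have hOd : ∀ p, Dense (O p) := by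
    rintro ⟨⟨i, W, hW⟩, v, hvM, hvW⟩
    rw [Metric.dense_iff]
    intro X₀ ε hε
    obtain ⟨X, hX, t, ht, hj⟩ := reachF hR hφ hcomm (hinv i) (htr i) (hb.isOpen hW) hvM
      hvW X₀ ε hε
    refine ⟨X, ?_, mem_iUnion.2 ⟨⟨t, ht⟩, hj⟩⟩
    rw [mem_ball, dist_eq_norm]
    exact hX
  refine Filter.mem_of_superset (countable_iInter_mem.2 fun p =>
    residual_of_dense_open (hOo p) (hOd p)) ?_
  intro X hX i v hv
  rw [_root_.mem_closure_iff]
  intro o ho hvo
  obtain ⟨W, hW, hvW, hWo⟩ := hb.exists_subset_of_mem_open hvo ho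
  obtain ⟨t, ht⟩ := mem_iUnion.1 (mem_iInter.1 hX ⟨⟨i, W, hW⟩, v, hv, hvW⟩)
  exact ⟨_, hWo ht, t.1, t.2, rfl⟩

theorem mem_omegaF_iff {f : ℝ → N → N} {p y : N} :
    y ∈ omegaF f p ↔ ∃ u : Ultrafilter ℝ, (u : Filter ℝ) ≤ atTop ∧
      Tendsto (fun t => f t p) u (𝓝 y) := by
  have h1 : y ∈ omegaF f p ↔ MapClusterPt y atTop (fun t : ℝ => f t p) := by
    rw [mapClusterPt_iff_frequently]
    constructor
    · intro h2 W hW
      rw [frequently_atTop]
      exact fun a => h2 W hW a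
    · intro h2 W hW a
      exact frequently_atTop.1 (h2 W hW) a
  rw [h1, mapClusterPt_iff_ultrafilter]

theorem omegaF_sub_of (hR : TorusAct k n N R) {f g : ℝ → N → N} {M : Set N}
    (hMR : ∀ X, ∀ y ∈ M, R X y ∈ M) {p : N}
    (hfg : ∀ t : ℝ, ∃ Z : V k, g t p = R Z (f t p)) (hf : omegaF f p ⊆ M) :
    omegaF g p ⊆ M := by
  intro y hy
  obtain ⟨u, hu, hyu⟩ := mem_omegaF_iff.1 hy
  have h1 : ∀ t : ℝ, ∃ Y : V k, (∀ i, Y i ∈ Icc (0 : ℝ) 1) ∧ f t p = R (-Y) (g t p) := by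
    intro t
    obtain ⟨Z, hZ⟩ := hfg t
    obtain ⟨Y, hY, hY2⟩ := frac_R hR Z
    refine ⟨Y, hY, ?_⟩
    rw [← hY2, hZ, hR.neg_add]
  choose Y hY hYe using h1
  have hK : IsCompact ((fun Z : Fin k → ℝ => (WithLp.toLp 2 Z : V k)) '' (Set.pi univ fun _ =>
      Icc (0 : ℝ) 1)) :=
    (isCompact_univ_pi fun _ => isCompact_Icc).image (PiLp.continuous_toLp 2 _)
  have hYK : ∀ t, Y t ∈ (fun Z : Fin k → ℝ => (WithLp.toLp 2 Z : V k)) '' (Set.pi univ fun _ =>
      Icc (0 : ℝ) 1) := fun t => ⟨fun i => Y t i, fun i _ => hY t i, rfl⟩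
  obtain ⟨Y', -, hY'⟩ := hK.ultrafilter_le_nhds (u.map Y) (by
    rw [Ultrafilter.coe_map]
    exact tendsto_principal.2 (Eventually.of_forall hYK))
  have hYt : Tendsto Y u (𝓝 Y') := hY'
  have h2 : Tendsto (fun t => f t p) u (𝓝 (R (-Y') y)) := by
    have h3 : Tendsto (fun t => R (-(Y t)) (g t p)) u (𝓝 (R (-Y') y)) :=
      (hR.cont.tendsto (-Y', y)).comp (hYt.neg.prodMk_nhds hyu)
    exact h3.congr fun t => (hYe t).symm
  have h3 : R (-Y') y ∈ M := hf (mem_omegaF_iff.2 ⟨u, hu, h2⟩)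
  have h4 := hMR Y' _ h3
  rwa [hR.add_neg] at h4

theorem fwdF (hR : TorusAct k n N R) (hφ : FlowOn N φ)
    (hcomm : ∀ t X y, φ t (R X y) = R X (φ t y)) [MeasurableSpace N] (μ : Measure N)
    (h : FinModF μ R φ) :
    ∀ᶠ X in residual (V k), FiniteAttractorsF μ (fun t y => φ t (R (t • X) y)) := by
  classical
  obtain ⟨m, M, hM, hcov⟩ := h
  choose hcl hinv hinvR x hxM hxd using hM
  filter_upwards [dense_parF hR hφ hcomm M hinv x hxd] with X hX
  have hbas : ∀ p i, omegaF (fun t y => φ t (R (t • X) y)) p ⊆ M i ↔ omegaF φ p ⊆ M i := by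
    intro p i
    constructor
    · exact omegaF_sub_of hR (hinvR i) fun t => ⟨-(t • X), by rw [hcomm, hR.neg_add]⟩
    · exact omegaF_sub_of hR (hinvR i) fun t => ⟨t • X, hcomm _ _ _⟩
  let J := {i : Fin m // 0 < μ {p | omegaF φ p ⊆ M i}}
  let e : Fin (Fintype.card J) ≃ J := (Fintype.equivFin J).symm
  refine ⟨Fintype.card J, fun i => M (e i).1, fun i => ⟨fun t => ?_, ⟨x _, hxM _, ?_⟩, ?_⟩, ?_⟩
  · have h1 : R (t • X) '' M (e i).1 = M (e i).1 := by
      refine Subset.antisymm ?_ fun y hy =>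
        ⟨R (-(t • X)) y, hinvR _ _ y hy, hR.add_neg (t • X) y⟩
      rintro _ ⟨y, hy, rfl⟩
      exact hinvR _ _ y hy
    have h2 : (fun y => φ t (R (t • X) y)) '' M (e i).1 = φ t '' (R (t • X) '' M (e i).1) :=
      image_comp (φ t) (R (t • X)) _
    rw [h2, h1, hinv]
  · exact hX (e i).1
  · simp only [hbas]
    exact (e i).2
  · simp only [hbas]
    have h1 : μ (⋃ i : {i : Fin m // ¬ 0 < μ {p | omegaF φ p ⊆ M i}},
        {p | omegaF φ p ⊆ M i.1}) = 0 := by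
      refine measure_iUnion_null fun i => ?_
      exact le_antisymm (not_lt.1 i.2) bot_le
    refine measure_mono_null ?_ (measure_union_null hcov h1)
    intro p hp
    by_cases hq : ∀ i, ¬ omegaF φ p ⊆ M i
    · exact Or.inl hq
    · push Not at hq
      obtain ⟨i, hi⟩ := hq
      right
      refine mem_iUnion.2 ⟨⟨i, fun hpos => ?_⟩, hi⟩
      have h2 := hp (e.symm ⟨i, hpos⟩)
      rw [e.apply_symm_apply] at h2
      exact h2 hi

theorem bwdF (hR : TorusAct k n N R) (hφ : FlowOn N φ)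
    (hcomm : ∀ t X y, φ t (R X y) = R X (φ t y)) [MeasurableSpace N] (μ : Measure N) (X : V k)
    (h : FiniteAttractorsF μ (fun t y => φ t (R (t • X) y))) : FinModF μ R φ := by
  obtain ⟨m, Λ, hΛ, hcov⟩ := h
  let S : Fin m → Set N := fun i => {z | ∃ Y : V k, ∃ y ∈ Λ i, z = R Y y}
  have hSR : ∀ i, ∀ Y : V k, ∀ y ∈ closure (S i), R Y y ∈ closure (S i) := by
    intro i Y y hy
    have h1 : R Y '' closure (S i) ⊆ closure (R Y '' S i) :=
      image_closure_subset_closure_image (hR.cont1 Y)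
    refine closure_mono ?_ (h1 (mem_image_of_mem _ hy))
    rintro _ ⟨_, ⟨Z, z, hz, rfl⟩, rfl⟩
    exact ⟨Y + Z, z, hz, (hR.add Y Z z).symm⟩
  have hΛS : ∀ i, Λ i ⊆ closure (S i) := fun i y hy =>
    subset_closure ⟨0, y, hy, (hR.zero y).symm⟩
  have hSφ : ∀ i t, ∀ z ∈ S i, φ t z ∈ S i := by
    rintro i t _ ⟨Y, y, hy, rfl⟩
    refine ⟨Y + -(t • X), φ t (R (t • X) y), ?_, ?_⟩
    · rw [← (hΛ i).1 t]
      exact mem_image_of_mem (fun y => φ t (R (t • X) y)) hy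
    · rw [hcomm, hcomm, hR.add, hR.neg_add]
  have hcS : ∀ i t, ∀ z ∈ closure (S i), φ t z ∈ closure (S i) := by
    intro i t z hz
    refine closure_mono ?_ (image_closure_subset_closure_image (hφ.cont1 t)
      (mem_image_of_mem _ hz))
    rintro _ ⟨z, hz, rfl⟩
    exact hSφ i t z hz
  refine ⟨m, fun i => closure (S i), fun i => ⟨isClosed_closure, fun t => ?_, hSR i, ?_⟩, ?_⟩
  · refine Subset.antisymm ?_ fun z hz => ⟨φ (-t) z, hcS i _ z hz, ?_⟩
    · rintro _ ⟨z, hz, rfl⟩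
      exact hcS i t z hz
    · rw [← hφ.add, add_neg_cancel, hφ.zero]
  · obtain ⟨x, hx, hxd⟩ := (hΛ i).2.1
    refine ⟨x, hΛS i hx, closure_minimal ?_ isClosed_closure⟩
    rintro _ ⟨Y, y, hy, rfl⟩
    have h2 : R Y y ∈ closure (R Y '' {y | ∃ t : ℝ, 0 ≤ t ∧ y = φ t (R (t • X) x)}) :=
      image_closure_subset_closure_image (hR.cont1 Y) (mem_image_of_mem _ (hxd hy))
    refine closure_mono ?_ h2
    rintro _ ⟨_, ⟨t, ht, rfl⟩, rfl⟩
    exact ⟨t, ht, Y + t • X, by rw [hcomm, hR.add]⟩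
  · refine measure_mono_null ?_ hcov
    intro p hp i hi
    refine hp i (omegaF_sub_of hR (hSR i) (f := fun t y => φ t (R (t • X) y)) (fun t => ?_)
      (hi.trans (hΛS i)))
    exact ⟨-(t • X), by rw [hcomm, hR.neg_add]⟩

theorem mainF (hR : TorusAct k n N R) (hφ : FlowOn N φ)
    (hcomm : ∀ t X y, φ t (R X y) = R X (φ t y)) [MeasurableSpace N] (μ : Measure N) :
    List.TFAE [FinModF μ R φ,
      ∀ᶠ X in residual (V k), FiniteAttractorsF μ (fun t y => φ t (R (t • X) y)),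
      ∃ X : V k, FiniteAttractorsF μ (fun t y => φ t (R (t • X) y))] := by
  tfae_have 1 → 2 := fwdF hR hφ hcomm μ
  tfae_have 2 → 3 := fun h => (dense_of_mem_residual h).nonempty
  tfae_have 3 → 1 := fun ⟨X, hX⟩ => bwdF hR hφ hcomm μ X hX
  tfae_finish

end Pool.Agent.N15.EQ
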