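import Pool.Agent.N15.EQ.Flow

/-!
# Finitude of attractors modulo a torus action: the perturbed flows

Author: helper15.
-/

set_option autoImplicit false
set_option linter.unusedSectionVars false

open scoped Manifold ContDiff Topology
open Filter Set Metric MeasureTheory

universe u

namespace Pool.Agent.N15.EQ

open Pool.Agent.H718R2.G Pool.Agent.N15.AS

variable {k n : ℕ} {N : Type u} [TopologicalSpace N] [T2Space N] [CompactSpace N]
  [ChartedSpace (V n) N] [IsManifold (𝓡 n) ∞ N]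
  {R : V k → N → N} {φ : ℝ → N → N}

theorem flowF (hR : TorusAct k n N R) (hφ : FlowOn N φ)
    (hcomm : ∀ t X y, φ t (R X y) = R X (φ t y)) (X : V k) :
    FlowOn N (fun t y => φ t (R (t • X) y)) := by
  refine ⟨?_, fun y => ?_, fun s t y => ?_⟩
  · have h1 : Continuous fun q : ℝ × N => (q.1, R (q.1 • X) q.2) :=
      continuous_fst.prodMk (hR.cont.comp ((continuous_fst.smul continuous_const).prodMk
        continuous_snd))
    exact hφ.cont.comp h1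
  · show φ 0 (R ((0 : ℝ) • X) y) = y
    rw [zero_smul, hR.zero, hφ.zero]
  · show φ (s + t) (R ((s + t) • X) y) = φ s (R (s • X) (φ t (R (t • X) y)))
    rw [hφ.add, add_smul, hR.add, hcomm t (s • X)]

theorem smoothF (hR : TorusAct k n N R) {r : ℕ∞}
    (hφr : ContMDiff ((𝓘(ℝ, ℝ)).prod (𝓡 n)) (𝓡 n) r (fun q : ℝ × N => φ q.1 q.2)) :
    ContMDiff ((𝓡 k).prod ((𝓘(ℝ, ℝ)).prod (𝓡 n))) (𝓡 n) r
      (fun q : V k × ℝ × N => φ q.2.1 (R (q.2.1 • q.1) q.2.2)) := by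
  have hr' : (r : WithTop ℕ∞) ≤ ∞ := by exact_mod_cast le_top
  have hX : ContMDiff ((𝓡 k).prod ((𝓘(ℝ, ℝ)).prod (𝓡 n))) (𝓡 k) r
      (fun q : V k × ℝ × N => q.1) := contMDiff_fst
  have ht : ContMDiff ((𝓡 k).prod ((𝓘(ℝ, ℝ)).prod (𝓡 n))) 𝓘(ℝ, ℝ) r
      (fun q : V k × ℝ × N => q.2.1) := contMDiff_fst.comp contMDiff_snd
  have hy : ContMDiff ((𝓡 k).prod ((𝓘(ℝ, ℝ)).prod (𝓡 n))) (𝓡 n) r
      (fun q : V k × ℝ × N => q.2.2) := contMDiff_snd.comp contMDiff_snd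
  have h1 : ContMDiff ((𝓡 k).prod ((𝓘(ℝ, ℝ)).prod (𝓡 n))) (𝓡 k) r
      (fun q : V k × ℝ × N => q.2.1 • q.1) := ht.smul hX
  have h2 : ContMDiff ((𝓡 k).prod ((𝓘(ℝ, ℝ)).prod (𝓡 n))) (𝓡 n) r
      (fun q : V k × ℝ × N => R (q.2.1 • q.1) q.2.2) :=
    (hR.smooth.of_le hr').comp (h1.prodMk hy)
  exact hφr.comp (ht.prodMk h2)

end Pool.Agent.N15.EQ
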