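import Pool.Agent.N15.AS.Main
import Pool.Agent.N15.AS.Fou

/-!
# Finitude of attractors modulo a torus action

Author: helper15.
-/

set_option autoImplicit false
set_option linter.unusedSectionVars false

open scoped Manifold ContDiff Topology
open Filter Set Metric MeasureTheory

universe u

namespace Pool.Agent.N15.EQ

open Pool.Agent.H718R2.G Pool.Agent.TH80.OMS Pool.Agent.Y504.CO Pool.Agent.Y318.MN
  Pool.Agent.N15.AS

open Pool.Agent.H728R2.FA (omegaLim IsAttractor FiniteAttractors)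

variable {k n : ℕ} {N : Type u} [TopologicalSpace N] [T2Space N] [CompactSpace N]
  [ChartedSpace (V n) N] [IsManifold (𝓡 n) ∞ N]
  {R : V k → N → N} {A : Matrix (Fin k) (Fin k) ℤ} {r : ℕ∞} {F : DiffM n N r}

/-- `F` has finitely many attractors modulo the torus which cover the space: there are finitely
many closed sets, invariant under `F` and the torus and transitive modulo the torus, such that the
`ω`-limit set of almost every point is contained in one of them. -/
def FinMod {k : ℕ} {N : Type u} [TopologicalSpace N] [MeasurableSpace N] (μ : Measure N)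
    (R : V k → N → N) (F : N → N) : Prop :=
  ∃ (m : ℕ) (M : Fin m → Set N), (∀ i, TransMod R F (M i)) ∧
    μ {p | ∀ i, ¬ omegaLim F p ⊆ M i} = 0

theorem main_fwd (hFOU : S_FOU) (hR : TorusAct k n N R) (hA : IsUnit A.det)
    (hP : PerCharsFixed A) (hcomm : ∀ X y, F (R X y) = R (lin A X) (F y))
    [MeasurableSpace N] (μ : Measure N) (h : FinMod μ R F) :
    ∀ᶠ X in residual (V k), FiniteAttractors μ (fun y => F (R X y)) := by
  classical
  obtain ⟨m, M, hM, hcov⟩ := h
  let J := {i : Fin m // 0 < μ {p | omegaLim F p ⊆ M i}}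
  let e : Fin (Fintype.card J) ≃ J := (Fintype.equivFin J).symm
  have hcov' : μ {p | ∀ i, ¬ omegaLim F p ⊆ M (e i).1} = 0 := by
    have h1 : μ (⋃ i : {i : Fin m // ¬ 0 < μ {p | omegaLim F p ⊆ M i}},
        {p | omegaLim F p ⊆ M i.1}) = 0 := by
      refine measure_iUnion_null fun i => ?_
      exact le_antisymm (not_lt.1 i.2) bot_le
    refine measure_mono_null ?_ (measure_union_null hcov h1)
    intro p hp
    by_cases hq : ∀ i, ¬ omegaLim F p ⊆ M i
    · exact Or.inl hq
    · push Not at hq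
      obtain ⟨i, hi⟩ := hq
      right
      refine mem_iUnion.2 ⟨⟨i, fun hpos => ?_⟩, hi⟩
      have h2 := hp (e.symm ⟨i, hpos⟩)
      rw [e.apply_symm_apply] at h2
      exact h2 hi
  filter_upwards [main1 hFOU hR hA hP hcomm (fun i => M (e i).1) (fun i => hM _) μ
    (fun i => (e i).2) hcov'] with X hX
  exact ⟨_, _, hX.1, hX.2⟩

theorem main_bwd (hR : TorusAct k n N R) (hA : IsUnit A.det)
    (hcomm : ∀ X y, F (R X y) = R (lin A X) (F y))
    [MeasurableSpace N] (μ : Measure N) (X : V k)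
    (h : FiniteAttractors μ (fun y => F (R X y))) : FinMod μ R F := by
  obtain ⟨m, Λ, hΛ, hcov⟩ := h
  have hit : ∀ (p : N) (j : ℕ), (fun y => F (R X y))^[j] p = R (Zs A j X) (F^[j] p) :=
    fun p j => iter_crit hR (fun y => rfl) (fun j X => hcomm _ _) j
  have hGF : ∀ y, F y = R (-(lin A X)) (F (R X y)) := by
    intro y
    rw [hcomm, hR.neg_add]
  let S : Fin m → Set N := fun i => {z | ∃ Y : V k, ∃ y ∈ Λ i, z = R Y y}
  have hSR : ∀ i, ∀ Y : V k, ∀ y ∈ closure (S i), R Y y ∈ closure (S i) := by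
    intro i Y y hy
    have h1 : R Y '' closure (S i) ⊆ closure (R Y '' S i) :=
      image_closure_subset_closure_image (hR.cont1 Y)
    refine closure_mono ?_ (h1 (mem_image_of_mem _ hy))
    rintro _ ⟨_, ⟨Z, z, hz, rfl⟩, rfl⟩
    exact ⟨Y + Z, z, hz, (hR.add Y Z z).symm⟩
  have hΛS : ∀ i, Λ i ⊆ closure (S i) := fun i y hy =>
    subset_closure ⟨0, y, hy, (hR.zero y).symm⟩
  have hSF : ∀ i, F '' S i = S i := by
    intro i
    ext z
    constructor
    · rintro ⟨_, ⟨Y, y, hy, rfl⟩, rfl⟩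
      refine ⟨lin A Y + -(lin A X), F (R X y), ?_, ?_⟩
      · rw [← (hΛ i).1]
        exact mem_image_of_mem (fun y => F (R X y)) hy
      · rw [hcomm, hGF y, hR.add]
    · rintro ⟨Y, y, hy, rfl⟩
      have hy' : y ∈ (fun y => F (R X y)) '' Λ i := by
        rw [(hΛ i).1]
        exact hy
      obtain ⟨y', hy', rfl⟩ := hy'
      obtain ⟨Z, hZ⟩ := lin_surj A hA Y
      refine ⟨R (Z + X) y', ⟨Z + X, y', hy', rfl⟩, ?_⟩
      rw [hR.add, hcomm, hZ]
  refine ⟨m, fun i => closure (S i), fun i => ⟨isClosed_closure, ?_, hSR i, ?_⟩, ?_⟩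
  · have e : F '' closure (S i) = closure (F '' S i) := F.toHomeomorph.image_closure (S i)
    rw [e, hSF]
  · obtain ⟨x, hx, hxd⟩ := (hΛ i).2.1
    refine ⟨x, hΛS i hx, closure_minimal ?_ isClosed_closure⟩
    rintro _ ⟨Y, y, hy, rfl⟩
    have h2 : R Y y ∈ closure (R Y '' range fun j : ℕ => (fun y => F (R X y))^[j] x) :=
      image_closure_subset_closure_image (hR.cont1 Y) (mem_image_of_mem _ (hxd hy))
    refine closure_mono ?_ h2
    rintro _ ⟨_, ⟨j, rfl⟩, rfl⟩
    refine ⟨j, Y + Zs A j X, ?_⟩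
    rw [hR.add]
    exact congrArg (R Y) (hit x j)
  · refine measure_mono_null ?_ hcov
    intro p hp i hi
    refine hp i (omega_sub_of hR (hSR i) (f := fun y => F (R X y)) (fun j => ?_)
      (hi.trans (hΛS i)))
    exact ⟨-(Zs A j X), by rw [hit, hR.neg_add]⟩

theorem main_near (hFOU : S_FOU) (hr : 1 ≤ r) (hR : TorusAct k n N R) (hA : IsUnit A.det)
    (hP : PerCharsFixed A) (hcomm : ∀ X y, F (R X y) = R (lin A X) (F y))
    [MeasurableSpace N] (μ : Measure N) (h : FinMod μ R F) (U : Set (DiffM n N r))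
    (hU : IsOpen[strongTop n N r] U) (hFU : F ∈ U) :
    ∃ G ∈ U, (∀ X y, G (R X y) = R (lin A X) (G y)) ∧ FiniteAttractors μ G := by
  obtain ⟨H, hH, hH0, hfam⟩ := Pool.Agent.N813.CL.exp_fam hR.exp r F
  obtain ⟨κ, hκ, hnear⟩ := near hr H hfam U hU (by rw [hH0]; exact hFU)
  have hd := dense_of_mem_residual (main_fwd hFOU hR hA hP hcomm μ h)
  obtain ⟨X, hX, hXd⟩ := Metric.dense_iff.1 hd 0 κ hκ
  rw [mem_ball, dist_zero_right] at hX
  refine ⟨H X, hnear X hX, fun Y y => ?_, ?_⟩
  · rw [hH, hH, ← hR.add, add_comm, hR.add, hcomm]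
  · have e : ((H X : DiffM n N r) : N → N) = fun y => F (R X y) := funext (hH X)
    rw [e]
    exact hXd

theorem main (hFOU : S_FOU) (hR : TorusAct k n N R) (hA : IsUnit A.det)
    (hP : PerCharsFixed A) (hcomm : ∀ X y, F (R X y) = R (lin A X) (F y))
    [MeasurableSpace N] (μ : Measure N) :
    List.TFAE [FinMod μ R F,
      ∀ᶠ X in residual (V k), FiniteAttractors μ (fun y => F (R X y)),
      ∃ X : V k, FiniteAttractors μ (fun y => F (R X y))] := by
  tfae_have 1 → 2 := main_fwd hFOU hR hA hP hcomm μ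
  tfae_have 2 → 3 := fun h => (dense_of_mem_residual h).nonempty
  tfae_have 3 → 1 := fun ⟨X, hX⟩ => main_bwd hR hA hcomm μ X hX
  tfae_finish

end Pool.Agent.N15.EQ
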